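import Pool.Agent.EVF.StmtsG

/-!
# Squad EVF, row GMN: the Gram matrix and the height of one member
-/

set_option autoImplicit false

namespace Pool.Agent.EVF.H76

open MvPolynomial MeasureTheory Matrix
open scoped ComplexOrder

theorem shaped {r : ℕ} {s : Shape r} {N : Mat r} (hsym : ∀ i j, N i j = N j i)
    (hdeg : ∀ i j, ∀ e ∈ (N i j).support, 2 * (s.u * e 0 + s.v * e 1) ≤ s.D i + s.D j)
    (htop : coeff (topE s) (F N) ≠ 0) : Shaped s (cmat N) := by
  refine ⟨fun i j => ?_, fun i j e he => ?_, ?_⟩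
  · rw [cmat_apply, cmat_apply, hsym]
  · refine hdeg i j e ?_
    rw [cmat_apply, mem_support_iff, coeff_cpx] at he
    rw [mem_support_iff]
    intro h
    apply he
    rw [h, Int.cast_zero]
  · rw [cmat_det, coeff_cpx]
    exact_mod_cast htop

theorem sized {r : ℕ} {s : Shape r} {N : Mat r} {b Q θ : ℝ} (hb : 1 ≤ b) (hQ : 1 ≤ Q)
    (hθ : 0 < θ) (hθ1 : θ ≤ 1)
    (hc : ∀ i j e, |((coeff e (N i j) : ℤ) : ℝ)| * b ^ (s.α * e 0 + s.β * e 1) ≤
      Q * b ^ (s.m i + s.m j))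
    (ht : θ * b ^ (2 * s.wt) ≤ |((coeff (topE s) (F N) : ℤ) : ℝ)| * b ^ (s.β * (s.deg / s.v))) :
    Sized s (cmat N) b Q θ := by
  refine ⟨hb, hQ, hθ, hθ1, fun i j e => ?_, ?_⟩
  · rw [cmat_apply, coeff_cpx, Complex.norm_intCast]
    exact hc i j e
  · rw [cmat_det, coeff_cpx, Complex.norm_intCast]
    exact ht

theorem num {K M D cc lQ lb τ : ℝ} {n : ℕ} (hK : 0 < K) (hM : 0 < M) (hD : 0 < D)
    (h : 1 ≤ (K * M) ^ n * D) (hlog : Real.log K = Real.log cc + lQ + 2 * τ * lb) (hcc : 0 < cc) :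
    -(1 / 2) * Real.log D ≤ n * (τ * lb) + n / 2 * (lQ + Real.log (cc * M)) := by
  have hKM : 0 < K * M := mul_pos hK hM
  have h1 := Real.log_nonneg h
  rw [Real.log_mul (by positivity) hD.ne', Real.log_pow, Real.log_mul hK.ne' hM.ne', hlog] at h1
  rw [Real.log_mul hcc.ne' hM.ne']
  nlinarith

/-- GMN -/
theorem gmn : LowStmt → DetStmt → HerStmt → HsmStmt → ZbaStmt → GmnStmt := by
  classical
  intro low det her hsm zba r s hs
  obtain ⟨Cz, hCz⟩ := zba r s hs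
  obtain ⟨C₁, c₁, hC₁, hlow⟩ := low r s hs
  obtain ⟨T, hT⟩ : ∃ T : ℕ, T = s.deg + ∑ i, s.D i := ⟨_, rfl⟩
  obtain ⟨L, hL⟩ : ∃ L : ℕ, L = Fintype.card (Fin r × Fin (T + 1) × Fin (T + 1)) := ⟨_, rfl⟩
  obtain ⟨φ, -⟩ : ∃ φ : Fin r × Fin (T + 1) × Fin (T + 1) ≃ Fin L, φ = φ :=
    ⟨Fintype.equivFinOfCardEq hL.symm, rfl⟩
  have hL1 : (0 : ℝ) < L + 1 := by positivity
  have hlogL : 0 ≤ Real.log (C₁ * (L + 1)) := by
    apply Real.log_nonneg
    have : (0 : ℝ) ≤ L := Nat.cast_nonneg L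
    nlinarith
  refine ⟨|Cz| * (1 + c₁ + Real.log (C₁ * (L + 1))), ?_⟩
  intro N hsym hdeg hred b Q θ τ hb hQ hθ hθ1 hcoef htop hτ
  have hb0 : 0 < b := by linarith
  have hQ0 : 0 < Q := by linarith
  have htop0 : coeff (topE s) (F N) ≠ 0 := by
    intro h0
    rw [h0, Int.cast_zero, abs_zero, zero_mul] at htop
    have : 0 < θ * b ^ (2 * s.wt) := by positivity
    linarith
  have hsh := shaped hsym hdeg htop0
  have hsz := sized hb hQ hθ hθ1 hcoef htop
  obtain ⟨hint, S, hS⟩ := hsm r s N hs hsh hred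
  obtain ⟨n, bas, hn, hli, hspan⟩ := hCz S (fun q hq i e he => ((hS q).1 hq).1 i e he)
  have hbas : ∀ j, bas j ∈ Hol s N := by
    intro j
    rw [← hS, ← hspan]
    exact Submodule.subset_span ⟨j, rfl⟩
  -- the coefficients
  have hbox : ∀ (j : Fin n) (i : Fin r) (e : Fin 2 →₀ ℕ), coeff e (bas j i) ≠ 0 →
      e 0 < T + 1 ∧ e 1 < T + 1 := by
    intro j i e he
    have h1 := (hbas j).1 i e (mem_support_iff.2 he)
    have h2 : s.D i ≤ ∑ i, s.D i := Finset.single_le_sum (f := s.D) (fun _ _ => Nat.zero_le _)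
      (Finset.mem_univ i)
    have hu := hs.u_pos
    have hv := hs.v_pos
    have h3 : e 0 + 1 ≤ s.u * (e 0 + 1) := Nat.le_mul_of_pos_left _ hu
    have h4 : e 1 + 1 ≤ s.v * (e 1 + 1) := Nat.le_mul_of_pos_left _ hv
    constructor <;> omega
  obtain ⟨ex, hex⟩ : ∃ ex : Fin (T + 1) × Fin (T + 1) → (Fin 2 →₀ ℕ), ex = fun p =>
    Finsupp.single 0 (p.1 : ℕ) + Finsupp.single 1 (p.2 : ℕ) := ⟨_, rfl⟩
  obtain ⟨B, hB⟩ : ∃ B : Fin L → Fin n → ℤ, B = fun ι j =>
    coeff (ex (φ.symm ι).2) (bas j (φ.symm ι).1) := ⟨_, rfl⟩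
  have hinj : ∀ a : Fin n → ℤ, (∀ ι, ∑ j, a j * B ι j = 0) → a = 0 := by
    intro a ha
    have hq : ∑ j, a j • bas j = 0 := by
      funext i
      ext e
      rw [Finset.sum_apply, coeff_sum]
      simp only [Pi.smul_apply, Pi.zero_apply, coeff_zero]
      have hterm : ∀ j, coeff e (a j • bas j i) = a j * coeff e (bas j i) := by
        intro j
        rw [coeff_smul, smul_eq_mul]
      simp only [hterm]
      by_cases he : e 0 < T + 1 ∧ e 1 < T + 1
      · have h1 := ha (φ (i, ⟨e 0, he.1⟩, ⟨e 1, he.2⟩))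
        rw [hB, hex] at h1
        simp only [Equiv.symm_apply_apply] at h1
        have h2 : (Finsupp.single 0 (e 0) + Finsupp.single 1 (e 1) : Fin 2 →₀ ℕ) = e := by
          ext k
          fin_cases k <;> simp
        rw [h2] at h1
        exact h1
      · refine Finset.sum_eq_zero fun j _ => ?_
        have h3 : coeff e (bas j i) = 0 := by
          by_contra h4
          exact he (hbox j i e h4)
        rw [h3, mul_zero]
    have h5 := Fintype.linearIndependent_iff.1 hli a hq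
    funext j
    exact h5 j
  obtain ⟨K, hK⟩ : ∃ K : ℝ, K = C₁ * (Q / θ) ^ c₁ * b ^ (2 * τ) := ⟨_, rfl⟩
  have hC₁0 : 0 < C₁ := by linarith
  have hbτ : 0 < b ^ (2 * τ) := Real.rpow_pos_of_pos hb0 _
  have hK0 : 0 < K := by
    rw [hK]
    positivity
  obtain ⟨hpos, hdet⟩ := det n L (gram N bas) B K hK0 (her r n N bas) hinj (fun v ι => by
    rw [hK, hB]
    exact hlow N b Q θ τ hsh hsz hred hτ n bas hbas v (φ.symm ι).1 (ex (φ.symm ι).2))
  refine ⟨n, bas, ?_, ⟨hli, fun q => by rw [hspan, hS]⟩, fun i j => hint _ (hbas i) _ (hbas j),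
    hpos, ?_⟩
  · have h1 : Cz ≤ |Cz| := le_abs_self _
    have h2 : |Cz| * 1 ≤ |Cz| * (1 + c₁ + Real.log (C₁ * (L + 1))) := by
      refine mul_le_mul_of_nonneg_left ?_ (abs_nonneg _)
      have : (0 : ℝ) ≤ c₁ := Nat.cast_nonneg c₁
      linarith
    linarith
  · have hKL : 0 < (K * (L + 1)) ^ n := by positivity
    have hD : 0 < (gram N bas).det.re := by
      by_contra hcon
      rw [not_lt] at hcon
      have := mul_nonpos_of_nonneg_of_nonpos hKL.le hcon
      linarith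
    have hlogQ : 0 ≤ Real.log Q - Real.log θ := by
      have h1 := Real.log_nonneg hQ
      have h2 := Real.log_nonpos hθ.le hθ1
      linarith
    have hlogK : Real.log K = Real.log C₁ + c₁ * (Real.log Q - Real.log θ) +
        2 * τ * Real.log b := by
      rw [hK, Real.log_mul (by positivity) hbτ.ne', Real.log_mul hC₁0.ne' (by positivity),
        Real.log_pow, Real.log_div hQ0.ne' hθ.ne', Real.log_rpow hb0]
    have h1 := num hK0 hL1 hD hdet hlogK hC₁0
    unfold hW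
    refine h1.trans ?_
    have hn0 : (0 : ℝ) ≤ n := Nat.cast_nonneg n
    have hc0 : (0 : ℝ) ≤ c₁ := Nat.cast_nonneg c₁
    have hnz : (n : ℝ) / 2 ≤ |Cz| := by
      have := le_abs_self Cz
      linarith
    obtain ⟨x, hx⟩ : ∃ x, x = Real.log Q - Real.log θ := ⟨_, rfl⟩
    obtain ⟨y, hy⟩ : ∃ y, y = Real.log (C₁ * (L + 1)) := ⟨_, rfl⟩
    rw [← hx] at hlogQ ⊢
    rw [← hy] at hlogL ⊢
    have hz : (n : ℝ) / 2 * (c₁ * x + y) ≤ |Cz| * (c₁ * x + y) :=
      mul_le_mul_of_nonneg_right hnz (by positivity)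
    have hz2 : |Cz| * (c₁ * x + y) ≤ |Cz| * (1 + c₁ + y) * x + |Cz| * (1 + c₁ + y) := by
      have h5 : |Cz| * (1 + c₁ + y) * x + |Cz| * (1 + c₁ + y) - |Cz| * (c₁ * x + y) =
          |Cz| * (x + y * x + 1 + c₁) := by ring
      have h6 : 0 ≤ |Cz| * (x + y * x + 1 + c₁) := by positivity
      linarith
    linarith

end Pool.Agent.EVF.H76
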